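import Pool.Agent.W829.RP.Defs

set_option autoImplicit false

open Set

namespace Pool.Agent.W340.RP

open Pool.Agent.W829.RP

/-- A convex combination of four points. -/
lemma comb4 {V : Type} [NormedAddCommGroup V] [NormedSpace ℝ V] {K : Set V} (hK : Convex ℝ K)
    {p q r s : V} (hp : p ∈ K) (hq : q ∈ K) (hr : r ∈ K) (hs : s ∈ K) {a b c d : ℝ}
    (ha : 0 ≤ a) (hb : 0 ≤ b) (hc : 0 ≤ c) (hd : 0 ≤ d) (h : a + b + c + d = 1) :
    a • p + b • q + c • r + d • s ∈ K := by
  have hsum := hK.sum_mem (t := Finset.univ) (w := ![a, b, c, d]) (z := ![p, q, r, s])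
    (by intro i _; fin_cases i <;> simp [ha, hb, hc, hd])
    (by simp [Fin.sum_univ_four]; linarith)
    (by intro i _; fin_cases i <;> simp [hp, hq, hr, hs])
  simpa [Fin.sum_univ_four] using hsum

theorem elr : S_ELR := by
  intro V _ _ K hK x y hne μ hμ z hz
  obtain ⟨q, ⟨a, hqa, ha1, ha2⟩, ⟨b, hqb, hb1, hb2⟩⟩ := hne
  obtain ⟨c, hzc, hc1, hc2⟩ := hz
  have hx : x ∈ K := by
    have := hK ha1 ha2 (by norm_num : (0 : ℝ) ≤ 1 / 2) (by norm_num : (0 : ℝ) ≤ 1 / 2) (by norm_num)
    have e : (1 / 2 : ℝ) • (x + a) + (1 / 2 : ℝ) • (x - a) = x := by module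
    rwa [e] at this
  have hyx : y = x + (1 / 5 : ℝ) • (a - b) := by
    have : x + (1 / 5 : ℝ) • a = y + (1 / 5 : ℝ) • b := by rw [← hqa, ← hqb]
    have e : y = x + (1 / 5 : ℝ) • a - (1 / 5 : ℝ) • b := by rw [this]; abel
    rw [e]; module
  set ν : ℝ := (1 + 3 * μ) / 2 with hν
  have hνpos : 0 < ν := by rw [hν]; positivity
  have hνne : ν ≠ 0 := hνpos.ne'
  have h13 : (1 + 3 * μ) ≠ 0 := by positivity
  refine ⟨ν⁻¹ • ((1 / 5 : ℝ) • (a - b) + μ • c), ?_, ?_, ?_⟩
  · rw [smul_smul, mul_inv_cancel₀ hνne, one_smul, hzc, hyx]; abel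
  · by_cases hm : μ ≤ 1
    · have hmem := comb4 hK hc1 ha1 hb2 hx (a := μ / ν) (b := (1 - μ) / (6 * ν))
        (c := (1 - μ) / (6 * ν)) (d := 1 - (1 + 2 * μ) / (3 * ν))
        (by positivity) (div_nonneg (by linarith) (by positivity))
        (div_nonneg (by linarith) (by positivity))
        (by
          rw [sub_nonneg, div_le_one (by positivity), hν]; linarith)
        (by field_simp; ring)
      convert hmem using 1
      rw [hyx, hν]
      match_scalars <;> field_simp <;> ring
    · push Not at hm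
      have hmem := comb4 hK hc1 ha2 hb1 hx (a := μ / ν) (b := (μ - 1) / (4 * ν))
        (c := (μ - 1) / (4 * ν)) (d := 1 - (3 * μ - 1) / (2 * ν))
        (by positivity) (div_nonneg (by linarith) (by positivity))
        (div_nonneg (by linarith) (by positivity))
        (by
          rw [sub_nonneg, div_le_one (by positivity), hν]; linarith)
        (by field_simp; ring)
      convert hmem using 1
      rw [hyx, hν]
      match_scalars <;> field_simp <;> ring
  · have hmem := comb4 hK hc2 ha2 hb1 hx (a := μ / ν) (b := (1 + μ) / (4 * ν))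
        (c := (1 + μ) / (4 * ν)) (d := 0)
        (by positivity) (by positivity) (by positivity) le_rfl
        (by rw [hν]; field_simp; ring)
    convert hmem using 1
    rw [hyx, hν]
    match_scalars <;> field_simp <;> ring

end Pool.Agent.W340.RP
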