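import Pool.Agent.W829.RP.Defs

set_option autoImplicit false

open Set MeasureTheory Module
open scoped ENNReal

namespace Pool.Agent.W340.RP

open Pool.Agent.W829.RP

/-- hyperplanes are null -/
lemma null_plane {V : Type} [NormedAddCommGroup V] [NormedSpace ℝ V] [FiniteDimensional ℝ V]
    [MeasureSpace V] [BorelSpace V] [(volume : Measure V).IsAddHaarMeasure] (l : V →L[ℝ] ℝ)
    (hl : l ≠ 0) (s : ℝ) : volume {y : V | l y = s} = 0 := by
  obtain ⟨v, hv⟩ : ∃ v, l v ≠ 0 := by
    by_contra h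
    push Not at h
    exact hl (ContinuousLinearMap.ext h)
  by_cases hne : ({y : V | l y = s}).Nonempty
  · obtain ⟨y0, hy0⟩ := hne
    let S : AffineSubspace ℝ V := AffineSubspace.mk' y0 (LinearMap.ker (l : V →ₗ[ℝ] ℝ))
    have hS : S ≠ ⊤ := by
      intro h
      have : (v + y0) ∈ S := by rw [h]; trivial
      rw [AffineSubspace.mem_mk'] at this
      simp at this
      exact hv this
    have h0 := Measure.addHaar_affineSubspace (volume : Measure V) S hS
    refine measure_mono_null (fun y hy => ?_) h0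
    show y ∈ S
    rw [AffineSubspace.mem_mk']
    have h1 : l y = s := hy
    have h2 : l y0 = s := hy0
    simp [h1, h2]
  · rw [not_nonempty_iff_eq_empty.1 hne]; simp

lemma exists_max {V : Type} [NormedAddCommGroup V] [NormedSpace ℝ V] {K : Set V} (hK : IsBody K)
    (l : V →L[ℝ] ℝ) : ∃ z ∈ K, ∀ y ∈ K, l y ≤ l z := by
  obtain ⟨z, hz, h⟩ := hK.2.1.exists_isMaxOn (hK.2.2.mono interior_subset) l.continuous.continuousOn
  exact ⟨z, hz, h⟩

lemma cap_ne_top {V : Type} [NormedAddCommGroup V] [NormedSpace ℝ V] [FiniteDimensional ℝ V]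
    [MeasureSpace V] [BorelSpace V] [(volume : Measure V).IsAddHaarMeasure] {K : Set V}
    (hK : IsBody K) (l : V →L[ℝ] ℝ) (s : ℝ) : volume (cap K l s) ≠ ⊤ :=
  ((measure_mono (fun _ h => h.1)).trans_lt hK.2.1.measure_lt_top).ne

variable {m : ℕ} {d : Fin m → ℕ}

lemma clm_pi (l : (∀ i, E (d i)) →L[ℝ] ℝ) (y : ∀ i, E (d i)) :
    l y = ∑ i, l.comp (ContinuousLinearMap.single ℝ (fun i => E (d i)) i) (y i) := by
  have : y = ∑ i, Pi.single i (y i) := (Finset.univ_sum_single y).symm
  conv_lhs => rw [this]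
  rw [map_sum]
  rfl

lemma ofReal_prod_pow (_hm : 1 ≤ m) (c : ℝ) (hc : 0 ≤ c) :
    ENNReal.ofReal (c ^ (∑ i, d i)) = ∏ i, ENNReal.ofReal (c ^ (d i)) := by
  rw [← ENNReal.ofReal_prod_of_nonneg (fun i _ => by positivity), Finset.prod_pow_eq_pow_sum]

/-- the second inequality -/
lemma pvA (hSC : S_SC) (hm : 1 ≤ m) (K : ∀ i, Set (E (d i)))
    (hK : ∀ i, IsBody (K i)) (x : ∀ i, E (d i)) (hx : x ∈ Set.pi univ K) :
    ∏ i, vf (K i) (x i) ≤ ENNReal.ofReal (m ^ (∑ i, d i)) * vf (Set.pi univ K) x := by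
  have hm0 : (0 : ℝ) < m := by exact_mod_cast hm
  have hc0 : ENNReal.ofReal ((m : ℝ) ^ (∑ i, d i)) ≠ 0 := by
    rw [Ne, ENNReal.ofReal_eq_zero, not_le]; positivity
  rw [vf, ENNReal.mul_iInf_of_ne hc0 ENNReal.ofReal_ne_top]
  refine le_iInf fun l => ?_
  set L : ∀ i, E (d i) →L[ℝ] ℝ :=
    fun i => l.comp (ContinuousLinearMap.single ℝ (fun i => E (d i)) i) with hL
  have hly : ∀ y, l y = ∑ i, L i (y i) := fun y => clm_pi l y
  choose z hz hzmax using fun i => exists_max (hK i) (L i)
  have hxi : ∀ i, x i ∈ K i := fun i => hx i (mem_univ i)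
  set a : Fin m → ℝ := fun i => L i (z i) - L i (x i) with ha
  have ha0 : ∀ i, 0 ≤ a i := fun i => sub_nonneg.2 (hzmax i _ (hxi i))
  set δ : ℝ := ∑ i, a i with hδ
  have hδ0 : 0 ≤ δ := Finset.sum_nonneg fun i _ => ha0 i
  have haδ : ∀ i, a i ≤ δ := fun i => Finset.single_le_sum (fun j _ => ha0 j) (Finset.mem_univ i)
  have hsub : Set.pi univ (fun i => cap (K i) (L i) (L i (z i) - (1 / (m : ℝ)) * δ)) ⊆
      cap (Set.pi univ K) l (l x) := by
    intro y hy
    refine ⟨fun i hi => (hy i hi).1, ?_⟩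
    rw [hly x, hly y]
    have h1 : ∑ i, (L i (z i) - (1 / (m : ℝ)) * δ) ≤ ∑ i, L i (y i) :=
      Finset.sum_le_sum fun i _ => (hy i (mem_univ i)).2
    refine le_trans (le_of_eq ?_) h1
    rw [Finset.sum_sub_distrib, Finset.sum_const, Finset.card_univ, Fintype.card_fin, nsmul_eq_mul]
    have : ∑ i, L i (x i) = ∑ i, L i (z i) - δ := by
      rw [hδ, ← Finset.sum_sub_distrib]
      exact Finset.sum_congr rfl fun i _ => by rw [ha]; ring
    rw [this]
    field_simp
  have hvol : ∏ i, volume (cap (K i) (L i) (L i (z i) - (1 / (m : ℝ)) * δ)) ≤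
      volume (cap (Set.pi univ K) l (l x)) := by
    refine le_trans (le_of_eq ?_) (measure_mono hsub)
    rw [volume_pi, Measure.pi_pi]
  have hfac : ∀ i, vf (K i) (x i) ≤ ENNReal.ofReal ((m : ℝ) ^ (d i)) *
      volume (cap (K i) (L i) (L i (z i) - (1 / (m : ℝ)) * δ)) := by
    intro i
    have h1 := hSC (E (d i)) (K i) (hK i) (L i) (z i) (hz i) (hzmax i) (1 / (m : ℝ)) δ (by positivity)
      (by rw [div_le_one hm0]; exact_mod_cast hm) hδ0
    rw [finrank_euclideanSpace_fin] at h1
    have h2 : vf (K i) (x i) ≤ volume (cap (K i) (L i) (L i (z i) - δ)) := by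
      refine (iInf_le _ (L i)).trans (measure_mono fun y hy => ⟨hy.1, ?_⟩)
      have h3 := hy.2
      have h4 := haδ i
      rw [ha] at h4
      simp only at h4
      linarith
    refine h2.trans ?_
    have h3 : volume (cap (K i) (L i) (L i (z i) - δ)) =
        ENNReal.ofReal ((m : ℝ) ^ (d i)) * (ENNReal.ofReal ((1 / (m : ℝ)) ^ (d i)) *
          volume (cap (K i) (L i) (L i (z i) - δ))) := by
      rw [← mul_assoc, ← ENNReal.ofReal_mul (by positivity), ← mul_pow, mul_one_div_cancel hm0.ne',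
        one_pow, ENNReal.ofReal_one, one_mul]
    rw [h3]
    gcongr
  calc ∏ i, vf (K i) (x i) ≤ ∏ i, (ENNReal.ofReal ((m : ℝ) ^ (d i)) *
      volume (cap (K i) (L i) (L i (z i) - (1 / (m : ℝ)) * δ))) :=
        Finset.prod_le_prod' fun i _ => hfac i
    _ = ENNReal.ofReal ((m : ℝ) ^ (∑ i, d i)) *
        ∏ i, volume (cap (K i) (L i) (L i (z i) - (1 / (m : ℝ)) * δ)) := by
        rw [Finset.prod_mul_distrib, ofReal_prod_pow hm _ hm0.le]
    _ ≤ _ := by gcongr

/-- the first inequality for given functionals -/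
lemma pvB (hSC : S_SC) (hm : 1 ≤ m) (K : ∀ i, Set (E (d i)))
    (hK : ∀ i, IsBody (K i)) (x : ∀ i, E (d i)) (hx : x ∈ Set.pi univ K)
    (L : ∀ i, E (d i) →L[ℝ] ℝ) :
    vf (Set.pi univ K) x ≤ ENNReal.ofReal (m ^ (∑ i, d i)) *
      ∏ i, volume (cap (K i) (L i) (L i (x i))) := by
  have hm0 : (0 : ℝ) < m := by exact_mod_cast hm
  choose z hz hzmax using fun i => exists_max (hK i) (L i)
  have hxi : ∀ i, x i ∈ K i := fun i => hx i (mem_univ i)
  set a : Fin m → ℝ := fun i => L i (z i) - L i (x i) with ha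
  have ha0 : ∀ i, 0 ≤ a i := fun i => sub_nonneg.2 (hzmax i _ (hxi i))
  by_cases hcase : ∃ i, a i = 0 ∧ L i ≠ 0
  · obtain ⟨i, hai, hLi⟩ := hcase
    set l : (∀ i, E (d i)) →L[ℝ] ℝ :=
      (L i).comp (ContinuousLinearMap.proj (R := ℝ) (φ := fun i => E (d i)) i) with hl
    have hl0 : l ≠ 0 := by
      intro h
      apply hLi
      ext v
      have h1 := congrArg (fun f : (∀ i, E (d i)) →L[ℝ] ℝ => f (Pi.single i v)) h
      simpa [hl] using h1
    have h0 : vf (Set.pi univ K) x = 0 := by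
      apply le_antisymm _ zero_le
      refine (iInf_le _ l).trans (le_of_eq ?_)
      refine measure_mono_null (fun y hy => ?_) (null_plane l hl0 (l x))
      have h1 : l x ≤ l y := hy.2
      have h2 : l y ≤ l x := by
        have h3 : L i (y i) ≤ L i (z i) := hzmax i _ (hy.1 i (mem_univ i))
        have h4 : L i (z i) - L i (x i) = 0 := hai
        show L i (y i) ≤ L i (x i)
        linarith
      exact le_antisymm h2 h1
    rw [h0]; exact zero_le
  · push Not at hcase
    set w : Fin m → ℝ := fun i => ((m : ℝ) * a i)⁻¹ with hw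
    have hw0 : ∀ i, 0 ≤ w i := fun i => inv_nonneg.2 (mul_nonneg hm0.le (ha0 i))
    set l : (∀ i, E (d i)) →L[ℝ] ℝ := ∑ i, w i •
      (L i).comp (ContinuousLinearMap.proj (R := ℝ) (φ := fun i => E (d i)) i) with hl
    have hly : ∀ y, l y = ∑ i, w i * L i (y i) := by
      intro y; rw [hl]; simp
    have hsub : cap (Set.pi univ K) l (l x) ⊆
        Set.pi univ (fun i => cap (K i) (L i) (L i (z i) - (m : ℝ) * a i)) := by
      intro y hy i _
      refine ⟨hy.1 i (mem_univ i), ?_⟩
      rcases (ha0 i).eq_or_lt with h | h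
      · have hLi : L i = 0 := hcase i h.symm
        rw [hLi, ← h]; simp
      · have h1 : ∑ j, w j * L j (x j) ≤ ∑ j, w j * L j (y j) := by
          have := hy.2; rwa [hly, hly] at this
        have h2 : ∑ j, w j * (L j (z j) - L j (y j)) ≤ 1 := by
          have h3 : ∑ j, w j * (L j (z j) - L j (y j)) ≤ ∑ j, w j * a j := by
            have e1 : ∑ j, w j * (L j (z j) - L j (y j)) =
                ∑ j, w j * L j (z j) - ∑ j, w j * L j (y j) := by
              rw [← Finset.sum_sub_distrib]; exact Finset.sum_congr rfl fun j _ => by ring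
            have e2 : ∑ j, w j * a j = ∑ j, w j * L j (z j) - ∑ j, w j * L j (x j) := by
              rw [← Finset.sum_sub_distrib]; exact Finset.sum_congr rfl fun j _ => by rw [ha]; ring
            rw [e1, e2]; linarith
          refine h3.trans ?_
          have h4 : ∀ j ∈ Finset.univ, w j * a j ≤ (m : ℝ)⁻¹ := by
            intro j _
            rcases (ha0 j).eq_or_lt with h' | h'
            · rw [← h']; simp
            · rw [hw]; simp only; rw [mul_inv, mul_assoc, inv_mul_cancel₀ h'.ne', mul_one]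
          refine (Finset.sum_le_card_nsmul _ _ _ h4).trans ?_
          rw [Finset.card_univ, Fintype.card_fin, nsmul_eq_mul, mul_inv_cancel₀ hm0.ne']
        have h5 : w i * (L i (z i) - L i (y i)) ≤ 1 := by
          refine le_trans (Finset.single_le_sum (f := fun j => w j * (L j (z j) - L j (y j)))
            (fun j _ => ?_) (Finset.mem_univ i)) h2
          exact mul_nonneg (hw0 j) (sub_nonneg.2 (hzmax j _ (hy.1 j (mem_univ j))))
        have hma : 0 < (m : ℝ) * a i := mul_pos hm0 h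
        rw [hw] at h5
        simp only at h5
        rw [inv_mul_le_iff₀ hma, mul_one] at h5
        linarith
    have hvol : volume (cap (Set.pi univ K) l (l x)) ≤
        ∏ i, volume (cap (K i) (L i) (L i (z i) - (m : ℝ) * a i)) := by
      refine (measure_mono hsub).trans (le_of_eq ?_)
      rw [volume_pi, Measure.pi_pi]
    refine (iInf_le _ l).trans (hvol.trans ?_)
    rw [ofReal_prod_pow hm _ hm0.le, ← Finset.prod_mul_distrib]
    refine Finset.prod_le_prod' fun i _ => ?_
    have h1 := hSC (E (d i)) (K i) (hK i) (L i) (z i) (hz i) (hzmax i) (1 / (m : ℝ)) ((m : ℝ) * a i)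
      (by positivity) (by rw [div_le_one hm0]; exact_mod_cast hm) (mul_nonneg hm0.le (ha0 i))
    rw [finrank_euclideanSpace_fin] at h1
    have h2 : L i (z i) - 1 / (m : ℝ) * ((m : ℝ) * a i) = L i (x i) := by
      rw [ha]; field_simp; ring
    rw [h2] at h1
    have h3 : volume (cap (K i) (L i) (L i (z i) - (m : ℝ) * a i)) =
        ENNReal.ofReal ((m : ℝ) ^ (d i)) * (ENNReal.ofReal ((1 / (m : ℝ)) ^ (d i)) *
          volume (cap (K i) (L i) (L i (z i) - (m : ℝ) * a i))) := by
      rw [← mul_assoc, ← ENNReal.ofReal_mul (by positivity), ← mul_pow, mul_one_div_cancel hm0.ne',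
        one_pow, ENNReal.ofReal_one, one_mul]
    rw [h3]
    gcongr

theorem pv : S_SC → S_PV := by
  intro hSC m d hm _ K hK x hx
  refine ⟨?_, pvA hSC hm K hK x hx⟩
  have hseq : ∀ i, ∃ u : ℕ → (E (d i) →L[ℝ] ℝ),
      Filter.Tendsto (fun n => volume (cap (K i) (u n) (u n (x i)))) Filter.atTop
        (nhds (vf (K i) (x i))) := by
    intro i
    obtain ⟨u, -, hu, hmem⟩ := exists_seq_tendsto_sInf
      (S := Set.range fun l : E (d i) →L[ℝ] ℝ => volume (cap (K i) l (l (x i))))
      (Set.range_nonempty _) (OrderBot.bddBelow _)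
    choose v hv using hmem
    refine ⟨v, ?_⟩
    have : (fun n => volume (cap (K i) (v n) (v n (x i)))) = u := funext hv
    rw [this]
    exact hu
  choose u hu using hseq
  have hfin : ∀ i, vf (K i) (x i) ≠ ⊤ := fun i =>
    ((iInf_le _ 0).trans_lt (cap_ne_top (hK i) 0 _).lt_top).ne
  have ht := ENNReal.tendsto_finsetProd_of_ne_top Finset.univ (fun i _ => hu i)
    (fun i _ => hfin i)
  have ht2 := ENNReal.Tendsto.const_mul (a := ENNReal.ofReal ((m : ℝ) ^ (∑ i, d i))) ht
    (Or.inr ENNReal.ofReal_ne_top)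
  exact ge_of_tendsto' ht2 fun n => pvB hSC hm K hK x hx (fun i => u i n)

end Pool.Agent.W340.RP
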